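import Pool.Agent.Y220.LD.G1M0
import Pool.Agent.TH850.UR.ExpMom

/-!
# Project LD (helper745): zeros far from the critical line are rare, unconditionally
-/

set_option autoImplicit false

namespace Pool.Agent.Y220.LD

open Complex H370 Pool.Agent.Y745.LD

theorem t_G1M : P_G1M := by
  obtain ⟨κ, C, T0, hκ, -, hC, hT0, h⟩ := Pool.Agent.TH850.UR.expmom
  refine g1m_of ⟨κ, C, T0, hκ, hC, hT0, fun T hT => ?_⟩
  refine le_trans (le_of_eq ?_) (h T hT)
  refine Finset.sum_congr rfl fun s _ => ?_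
  unfold Pool.Agent.TH850.UR.ew
  rw [zz_im, abs_neg]

end Pool.Agent.Y220.LD
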