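import Pool.Agent.Y745.LD.DefsB
import Pool.Agent.H370R2.DirGood

/-!
# Project LD (helper745): zeros far from the critical line are rare
-/

set_option autoImplicit false

namespace Pool.Agent.Y220.LD

open Filter Topology MeasureTheory Complex H370 Pool.Agent.Y745.SW Pool.Agent.Y745.LD

/-- the zeros in the critical strip -/
def Zc : Set ℂ := {s : ℂ | riemannZeta s = 0 ∧ 0 < s.re ∧ s.re < 1}

/-- an entire function which vanishes at the zeros -/
noncomputable def xi0 (s : ℂ) : ℂ := s * (1 - s) * completedRiemannZeta₀ s - 1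

theorem xi0_entire : Differentiable ℂ xi0 := by
  unfold xi0
  exact ((differentiable_id.mul ((differentiable_const (1 : ℂ)).sub differentiable_id)).mul
    differentiable_completedZeta₀).sub (differentiable_const 1)

theorem xi0_zero {s : ℂ} (hs : s ∈ Zc) : xi0 s = 0 := by
  obtain ⟨h0, h1, h2⟩ := hs
  have hs0 : s ≠ 0 := by
    rintro rfl
    simp at h1
  have hs1 : 1 - s ≠ 0 := by
    intro h
    have h3 : s = 1 := (sub_eq_zero.1 h).symm
    rw [h3] at h2
    simp at h2
  rw [riemannZeta_def_of_ne_zero hs0, div_eq_zero_iff] at h0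
  rcases h0 with h0 | h0
  · rw [completedRiemannZeta_eq] at h0
    unfold xi0
    have h3 : completedRiemannZeta₀ s = 1 / s + 1 / (1 - s) := by linear_combination h0
    rw [h3]
    field_simp
    ring
  · exact absurd h0 (Gammaℝ_ne_zero_of_re_pos h1)

theorem Zc_countable : Zc.Countable := by
  have h1 : Zc ⊆ ⋃ n : ℕ, (Zc ∩ Metric.closedBall 0 n) := by
    intro s hs
    obtain ⟨n, hn⟩ := exists_nat_ge ‖s‖
    exact Set.mem_iUnion.2 ⟨n, hs, by rw [mem_closedBall_zero_iff]; exact hn⟩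
  refine Set.Countable.mono h1 (Set.countable_iUnion fun n => Set.Finite.countable ?_)
  by_contra hinf
  have hinf : (Zc ∩ Metric.closedBall 0 (n : ℝ)).Infinite := hinf
  obtain ⟨x, -, hacc⟩ := hinf.exists_accPt_of_subset_isCompact
    (isCompact_closedBall (0 : ℂ) (n : ℝ)) Set.inter_subset_right
  have hfreq : ∃ᶠ z in 𝓝[≠] x, xi0 z = 0 := by
    rw [accPt_iff_frequently_nhdsNE] at hacc
    exact hacc.mono fun z hz => xi0_zero hz.1
  have hz := AnalyticOnNhd.eqOn_zero_of_preconnected_of_frequently_eq_zero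
    (f := xi0) (U := Set.univ) (fun s _ => xi0_entire.analyticAt s) isPreconnected_univ
    (Set.mem_univ x) hfreq
  have h2 : xi0 0 = 0 := hz (Set.mem_univ 0)
  simp [xi0] at h2

theorem G1_meas (r D T : ℝ) : MeasurableSet (G1 r D T) := by
  have h : (G1 r D T)ᶜ = ⋃ s ∈ {s : ℂ | s ∈ Zc ∧ ¬ |s.re - 1 / 2| ≤ D * LL T / Real.log T},
      {t : ℝ | |s.im - t| ≤ r * Real.log T} := by
    ext t
    rw [Set.mem_compl_iff, Set.mem_iUnion₂]
    constructor
    · intro ht
      have ht' : ¬ ∀ s : ℂ, riemannZeta s = 0 → 0 < s.re → s.re < 1 →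
          |s.im - t| ≤ r * Real.log T → |s.re - 1 / 2| ≤ D * LL T / Real.log T := ht
      push Not at ht'
      obtain ⟨s, h1, h2, h3, h4, h5⟩ := ht'
      exact ⟨s, ⟨⟨h1, h2, h3⟩, not_le.2 h5⟩, h4⟩
    · rintro ⟨s, ⟨⟨h1, h2, h3⟩, h5⟩, h4⟩ ht
      exact h5 (ht s h1 h2 h3 h4)
  rw [← MeasurableSet.compl_iff, h]
  refine MeasurableSet.biUnion (Zc_countable.mono fun s hs => hs.1) fun s _ => ?_
  exact measurableSet_le (by fun_prop) measurable_const

open Classical in
/-- the zeros in `(V, 2V]` far from the line -/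
noncomputable def bad (δ V : ℝ) : Finset ℂ :=
  (Zf riemannZeta V (2 * V)).filter fun s => δ < |s.re - 1 / 2|

theorem bad_card {κ C V Y δ : ℝ} (hκ : 0 < κ) (hV : 1 ≤ V) (hδ : 0 ≤ δ)
    (h : ∑ s ∈ Zf riemannZeta V (2 * V), (mult riemannZeta s : ℝ) *
      Real.exp (κ * (|(zz s).im| * Real.log V)) ≤ C * (V * Real.log V))
    (hY : Y ≤ Real.exp (κ * (δ * Real.log V))) (hY0 : 0 ≤ Y) :
    ((bad δ V).card : ℝ) * Y ≤ C * (V * Real.log V) := by
  classical
  have hlog : 0 ≤ Real.log V := Real.log_nonneg hV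
  refine le_trans ?_ h
  have h1 : ∑ s ∈ bad δ V, Y ≤ ∑ s ∈ bad δ V, (mult riemannZeta s : ℝ) *
      Real.exp (κ * (|(zz s).im| * Real.log V)) := by
    refine Finset.sum_le_sum fun s hs => ?_
    unfold bad at hs
    rw [Finset.mem_filter, mem_Zf good_zeta hV] at hs
    obtain ⟨hs1, hs2⟩ := hs
    have h2 : (1 : ℝ) ≤ mult riemannZeta s := by
      exact_mod_cast Loc.mult_pos' good_zeta (by linarith [hs1.2.2.1]) hs1.2.2.2.2
    have h3 : Y ≤ Real.exp (κ * (|(zz s).im| * Real.log V)) := by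
      refine hY.trans (Real.exp_le_exp.2 ?_)
      rw [zz_im, abs_neg]
      gcongr
    calc Y = 1 * Y := (one_mul _).symm
      _ ≤ (mult riemannZeta s : ℝ) * Real.exp (κ * (|(zz s).im| * Real.log V)) :=
        mul_le_mul h2 h3 hY0 (Nat.cast_nonneg _)
  rw [Finset.sum_const, nsmul_eq_mul] at h1
  refine h1.trans ?_
  unfold bad
  exact Finset.sum_le_sum_of_subset_of_nonneg (Finset.filter_subset _ _) fun s _ _ => by positivity

theorem g1m_of (hD : ∃ κ C T0 : ℝ, 0 < κ ∧ 0 < C ∧ 10 ≤ T0 ∧ ∀ T : ℝ, T0 ≤ T →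
    ∑ s ∈ Zf riemannZeta T (2 * T), (mult riemannZeta s : ℝ) *
      Real.exp (κ * (|(zz s).im| * Real.log T)) ≤ C * (T * Real.log T)) : P_G1M := by
  classical
  obtain ⟨κ, C, T0, hκ, hC, hT0, hd⟩ := hD
  intro r A' hr hA'
  refine ⟨2 * (A' + 3) / κ, by positivity, fun D hD => ?_⟩
  have hκD : A' + 3 ≤ κ * D / 2 := by
    rw [div_le_iff₀ hκ] at hD
    linarith
  have hlim : Tendsto (fun T : ℝ => Real.log T / T) atTop (𝓝 0) := by
    have := Real.isLittleO_log_id_atTop.tendsto_div_nhds_zero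
    simpa using this
  filter_upwards [eventually_ge_atTop (2 * T0), eventually_ge_atTop (20 : ℝ),
    Real.tendsto_log_atTop.eventually (eventually_ge_atTop (24 * r * C)),
    Real.tendsto_log_atTop.eventually (eventually_ge_atTop (4 : ℝ)),
    hlim.eventually (gt_mem_nhds (show (0 : ℝ) < 1 / (4 * r) by positivity))] with
    T hT1 hT2 hL1 hL2 hL3
  refine ⟨G1_meas r D T, ?_⟩
  have hTpos : 0 < T := by linarith
  obtain ⟨L, hLd⟩ : ∃ L : ℝ, L = Real.log T := ⟨_, rfl⟩
  have hLL : LL T = Real.log L := by rw [hLd]; rfl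
  rw [← hLd] at hL1 hL2 hL3
  have hL0 : 0 < L := by linarith
  have hlogL : 0 < Real.log L := Real.log_pos (by linarith)
  have hrL : r * L < T / 2 := by
    rw [div_lt_iff₀ hTpos] at hL3
    have h1 : r * L < r * (1 / (4 * r) * T) := mul_lt_mul_of_pos_left hL3 hr
    have h2 : r * (1 / (4 * r) * T) = T / 4 := by field_simp
    linarith
  set δ : ℝ := D * LL T / Real.log T with hδd
  have hD0 : 0 < D := lt_of_lt_of_le (by positivity) hD
  have hδ0 : 0 ≤ δ := by
    rw [hδd, ← hLd, hLL]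
    positivity
  set Y : ℝ := L ^ (A' + 3) with hYd
  have hY0 : 0 < Y := Real.rpow_pos_of_pos hL0 _
  have hlog2 : Real.log 2 ≤ 1 := by
    have := Real.log_two_lt_d9
    linarith
  -- the number of bad zeros
  have hcount : ∀ V : ℝ, T / 2 ≤ V → V ≤ 2 * T → ((bad δ V).card : ℝ) * Y ≤ 4 * C * (T * L) := by
    intro V hV1 hV2
    have hV0 : 0 < V := by linarith
    have hlV : L / 2 ≤ Real.log V := by
      have h1 : Real.log (T / 2) ≤ Real.log V := Real.log_le_log (by linarith) hV1
      rw [Real.log_div hTpos.ne' (by norm_num), ← hLd] at h1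
      linarith
    have hlV2 : Real.log V ≤ 2 * L := by
      have h1 : Real.log V ≤ Real.log (2 * T) := Real.log_le_log hV0 hV2
      rw [Real.log_mul (by norm_num) hTpos.ne', ← hLd] at h1
      linarith
    have hY : Y ≤ Real.exp (κ * (δ * Real.log V)) := by
      rw [hYd, Real.rpow_def_of_pos hL0]
      refine Real.exp_le_exp.2 ?_
      have h1 : δ * L = D * Real.log L := by
        rw [hδd, ← hLd, hLL]
        field_simp
      have h2 : κ * (δ * (L / 2)) ≤ κ * (δ * Real.log V) := by gcongr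
      have h3 : κ * (δ * (L / 2)) = κ * D / 2 * Real.log L := by
        calc κ * (δ * (L / 2)) = κ / 2 * (δ * L) := by ring
          _ = κ * D / 2 * Real.log L := by rw [h1]; ring
      have h4 : (A' + 3) * Real.log L ≤ κ * D / 2 * Real.log L :=
        mul_le_mul_of_nonneg_right hκD hlogL.le
      linarith
    have h1 := bad_card hκ (by linarith : (1 : ℝ) ≤ V) hδ0 (hd V (by linarith)) hY hY0.le
    refine h1.trans ?_
    have h2 : V * Real.log V ≤ (2 * T) * (2 * L) :=
      mul_le_mul hV2 hlV2 (by linarith) (by linarith)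
    nlinarith
  -- the covering
  let F : Finset ℂ := bad δ (T / 2) ∪ (bad δ T ∪ bad δ (2 * T))
  have hF : (F.card : ℝ) * Y ≤ 12 * C * (T * L) := by
    have h1 : (F.card : ℝ) ≤ (bad δ (T / 2)).card + ((bad δ T).card + (bad δ (2 * T)).card) := by
      have h2 := Finset.card_union_le (bad δ (T / 2)) (bad δ T ∪ bad δ (2 * T))
      have h3 := Finset.card_union_le (bad δ T) (bad δ (2 * T))
      exact_mod_cast h2.trans (Nat.add_le_add_left h3 _)
    have h2 := hcount (T / 2) le_rfl (by linarith)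
    have h3 := hcount T (by linarith) (by linarith)
    have h4 := hcount (2 * T) (by linarith) le_rfl
    have h5 := mul_le_mul_of_nonneg_right h1 hY0.le
    linarith
  have hsub : Set.Icc T (2 * T) \ G1 r D T ⊆
      ⋃ s ∈ F, Set.Icc (s.im - r * L) (s.im + r * L) := by
    rintro t ⟨ht, htG⟩
    have ht' : ¬ ∀ s : ℂ, riemannZeta s = 0 → 0 < s.re → s.re < 1 →
        |s.im - t| ≤ r * Real.log T → |s.re - 1 / 2| ≤ D * LL T / Real.log T := htG
    push Not at ht'
    obtain ⟨s, h1, h2, h3, h4, h5⟩ := ht'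
    rw [← hLd, abs_le] at h4
    refine Set.mem_iUnion₂.2 ⟨s, ?_, ?_⟩
    · have hlo : T / 2 < s.im := by linarith [ht.1]
      have hhi : s.im ≤ 2 * (2 * T) := by linarith [ht.2]
      have hin : ∀ V : ℝ, 1 ≤ V → V < s.im → s.im ≤ 2 * V → s ∈ bad δ V := by
        intro V hV h6 h7
        unfold bad
        rw [Finset.mem_filter, mem_Zf good_zeta hV]
        exact ⟨⟨h2, h3, h6, h7, h1⟩, h5⟩
      rw [Finset.mem_union, Finset.mem_union]
      rcases le_or_gt s.im T with h6 | h6
      · exact Or.inl (hin _ (by linarith) hlo (by linarith))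
      · rcases le_or_gt s.im (2 * T) with h7 | h7
        · exact Or.inr (Or.inl (hin _ (by linarith) h6 h7))
        · exact Or.inr (Or.inr (hin _ (by linarith) h7 hhi))
    · constructor <;> linarith
  have hvol : volume.real (⋃ s ∈ F, Set.Icc (s.im - r * L) (s.im + r * L)) ≤
      F.card * (2 * (r * L)) := by
    refine (measureReal_biUnion_finset_le F _).trans ?_
    have h1 : ∀ s ∈ F, volume.real (Set.Icc (s.im - r * L) (s.im + r * L)) ≤ 2 * (r * L) := by
      intro s _
      have hle : s.im - r * L ≤ s.im + r * L := by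
        have : 0 < r * L := by positivity
        linarith
      rw [Real.volume_real_Icc_of_le hle]
      linarith
    refine (Finset.sum_le_sum h1).trans ?_
    rw [Finset.sum_const, nsmul_eq_mul]
  have hfin : volume (⋃ s ∈ F, Set.Icc (s.im - r * L) (s.im + r * L)) ≠ ⊤ := by
    have : IsCompact (⋃ s ∈ F, Set.Icc (s.im - r * L) (s.im + r * L)) :=
      F.finite_toSet.isCompact_biUnion fun s _ => isCompact_Icc
    exact this.measure_lt_top.ne
  refine (measureReal_mono hsub hfin).trans (hvol.trans ?_)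
  -- the final computation
  rw [← hLd]
  have hLA : 0 < L ^ A' := Real.rpow_pos_of_pos hL0 _
  rw [le_div_iff₀ hLA]
  have hYL : Y = L ^ A' * L ^ 3 := by
    rw [hYd, Real.rpow_add hL0]
    congr 1
    exact_mod_cast Real.rpow_natCast L 3
  have h1 : (F.card : ℝ) * (2 * (r * L)) * L ^ A' * L ^ 2 = 2 * r * ((F.card : ℝ) * Y) := by
    rw [hYL]; ring
  have h2 : 2 * r * ((F.card : ℝ) * Y) ≤ 2 * r * (12 * C * (T * L)) :=
    mul_le_mul_of_nonneg_left hF (by positivity)
  have h3 : 2 * r * (12 * C * (T * L)) ≤ T * L ^ 2 := by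
    calc 2 * r * (12 * C * (T * L)) = (24 * r * C) * (T * L) := by ring
      _ ≤ L * (T * L) := mul_le_mul_of_nonneg_right hL1 (by positivity)
      _ = T * L ^ 2 := by ring
  have h4 : (F.card : ℝ) * (2 * (r * L)) * L ^ A' * L ^ 2 ≤ T * L ^ 2 := by
    rw [h1]; exact h2.trans h3
  exact le_of_mul_le_mul_right h4 (by positivity)

end Pool.Agent.Y220.LD
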